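import Pool.Agent.H32.URec

set_option autoImplicit false

open Filter Topology

namespace Pool.Agent.Results.MP_3dc43d_an.Separable

/-- On a separable Banach space the uniformly recurrent vectors of a uniformly recurrent operator
contain a dense linear subspace. -/
theorem result (𝕂 : Type) [RCLike 𝕂] (X : Type) [NormedAddCommGroup X] [NormedSpace 𝕂 X]
    [CompleteSpace X] [TopologicalSpace.SeparableSpace X] (T : X →L[𝕂] X)
    (h : Dense {x : X | ∀ U ∈ 𝓝 x, ∃ N : ℕ, ∀ m : ℕ, ∃ n : ℕ,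
      m ≤ n ∧ n ≤ m + N ∧ 1 ≤ n ∧ (T ^ n) x ∈ U}) :
    ∃ M : Submodule 𝕂 X, Dense (M : Set X) ∧
      ∀ x ∈ M, ∀ U ∈ 𝓝 x, ∃ N : ℕ, ∀ m : ℕ, ∃ n : ℕ,
        m ≤ n ∧ n ≤ m + N ∧ 1 ≤ n ∧ (T ^ n) x ∈ U := by
  simp only [FunLike.coe_pow_eq_iterate] at h ⊢
  obtain ⟨D, h1, h2, h3⟩ := h.exists_countable_dense_subset
  have := h2.to_subtype
  obtain ⟨q, hq, k⟩ := Pool.Agent.H32.URec.joint T.continuous (fun d : D => d.1) fun d U hU =>
    (h1 d.2 U hU).imp fun g hg k => (hg k).imp fun n hn => ⟨hn.1, hn.2.1, hn.2.2.2⟩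
  refine ⟨⟨⟨⟨{z | ∃ y, Tendsto (fun n => T^[n] y) q (𝓝 z)}, ?_⟩, 0, ?_⟩, ?_⟩,
    (h3.mono (s₂ := closure _) fun d hd => k ⟨d, hd⟩).of_closure, ?_⟩
  · rintro a b ⟨y, hy⟩ ⟨z, hz⟩
    exact ⟨y + z, by simpa only [← FunLike.coe_pow_eq_iterate, map_add] using hy.add hz⟩
  · simpa only [← FunLike.coe_pow_eq_iterate, map_zero] using tendsto_const_nhds
  · rintro c a ⟨y, hy⟩
    exact ⟨c • y, by simpa only [← FunLike.coe_pow_eq_iterate, map_smul] using hy.const_smul c⟩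
  · rintro x ⟨y, hy⟩ U hU
    obtain ⟨g, hg⟩ := Pool.Agent.H32.URec.ur_of_good T.continuous hq hy U hU
    refine ⟨g + 1, fun m => ?_⟩
    obtain ⟨n, h1, h2, h3⟩ := hg (m + 1)
    exact ⟨n, by omega, by omega, by omega, h3⟩

end Pool.Agent.Results.MP_3dc43d_an.Separable
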